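import Pool.Agent.helper54.HC.TSpec

/-!
# hc:TA5: a basis of the lattice with its dual coordinates
-/

namespace Pool.Agent.HC

open scoped Matrix ComplexConjugate Classical

open Module Submodule in
theorem TA5 : TA5_stmt := by
  intro W _ _ _ Lam hLam
  have : FiniteDimensional ℝ W := FiniteDimensional.complexToReal W
  have : ProperSpace W := FiniteDimensional.proper ℝ W
  let L : Submodule ℤ W := AddSubgroup.toIntSubmodule Lam
  have hL : ∀ w, w ∈ L ↔ w ∈ Lam := fun w => Iff.rfl
  obtain ⟨ε, hε, hd⟩ := hLam.discrete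
  have hdisc : DiscreteTopology L := by
    refine discreteTopology_of_isOpen_singleton_zero ?_
    rw [Metric.isOpen_singleton_iff]
    refine ⟨ε, hε, fun y hy => ?_⟩
    have h1 : ‖(y : W)‖ < ε := by
      simpa [dist_eq_norm] using hy
    exact Subtype.ext (hd _ ((hL _).1 y.2) h1)
  have hz : IsZLattice ℝ L := ⟨hLam.span⟩
  have hfin : Module.Finite ℤ L := ZLattice.module_finite ℝ L
  have hfree : Module.Free ℤ L := ZLattice.module_free ℝ L
  let n := finrank ℤ L
  let B : Basis (Fin n) ℤ L := Module.finBasis ℤ L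
  let b := B.ofZLatticeBasis ℝ L
  refine ⟨n, fun i => b i, fun i => b.coord i, ?_, ?_, ?_, ?_⟩
  · intro i
    have h : b i = (B i : W) := Basis.ofZLatticeBasis_apply ℝ L B i
    change b i ∈ Lam
    rw [h]
    exact (hL _).1 (B i).2
  · intro i w hw
    refine ⟨B.repr ⟨w, (hL w).2 hw⟩ i, ?_⟩
    have := B.ofZLatticeBasis_repr_apply ℝ L ⟨w, (hL w).2 hw⟩ i
    exact this
  · intro w
    exact (b.sum_repr w).symm
  · intro i j
    simp [Finsupp.single_apply, eq_comm]

end Pool.Agent.HC
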