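import Pool.Agent.helper28.HC.KDefs
import Pool.Agent.helper28.BQ.SpecK

/-!
# HC, part K: the arithmetic group acts cocompactly on the ball, any dimension `a`

Every `XX_stmt : Prop` is one module; its proof may assume any other `YY_stmt` of `HC.SpecK` or
`HC.SpecN` as a hypothesis.  The proofs follow those of project `bq` (there `a = 2` and matrices
over `E` were pairs of matrices over `F`; now `E` is used directly, which is simpler).
File `Pool/Agent/<seat>/HC/XX.lean`, `namespace HC`, theorem `XX`, auxiliary lemmas named `XX_..`.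
-/

open scoped BigOperators ComplexConjugate Matrix ComplexOrder
open NumberField

namespace HC

/-! ## linear algebra of the form and of the majorant -/

/-- ME: the unitary group acts on the ball; equivariance of the form and of the majorant.
Proof: `herm t (zt w) (zt w) = nsq w - t < 0`, so `g (w, 1)` is a negative vector and its last
coordinate is not `0` (a vector with last coordinate `0` has `herm ≥ 0`).
(`g` is invertible because `hm a t` is, `t ≠ 0`.) -/
def ME_stmt : Prop := ∀ (a : ℕ) (t : ℝ) (g h : Matrix (Fin (a + 1)) (Fin (a + 1)) ℂ)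
  (w z : Fin a → ℂ), 0 < t → IsU t g → IsU t h → w ∈ Ball a t → z ∈ Ball a t →
  jf g w ≠ 0 ∧ mob g w ∈ Ball a t ∧ zt (mob g w) = (jf g w)⁻¹ • (g *ᵥ zt w) ∧
  mob (h * g) w = mob h (mob g w) ∧ jf (h * g) w = jf h (mob g w) * jf g w ∧
  mob 1 w = w ∧ jf 1 w = 1 ∧ IsU t (h * g) ∧ IsUnit g.det ∧ IsU t g⁻¹ ∧
  (∀ X Y : Fin (a + 1) → ℂ, herm t (g *ᵥ X) (g *ᵥ Y) = herm t X Y) ∧
  (∀ X Y : Fin (a + 1) → ℂ, herm t X Y = star X ⬝ᵥ (hm a (t : ℂ) *ᵥ Y)) ∧
  (∀ X : Fin (a + 1) → ℂ, maj t (mob g w) (g *ᵥ X) = maj t w X) ∧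
  herm t (zt z) (zt w) = ∑ i, conj (z i) * w i - (t : ℂ) ∧
  herm t (zt (mob g z)) (zt (mob g w)) = herm t (zt z) (zt w) / (conj (jf g z) * jf g w) ∧
  t - nsq (mob g w) = (t - nsq w) / ‖jf g w‖ ^ 2

/-- MA: the majorant is positive definite and dominates the hermitian form.
(Decompose `X = x • zt w + Y` with `herm t (zt w) Y = 0`; `herm t` is positive on the orthogonal
complement of `zt w`: `t * Y_last = ∑ conj (w i) * Y i`, Cauchy-Schwarz.) -/
def MA_stmt : Prop := ∀ (a : ℕ) (t : ℝ) (w : Fin a → ℂ), 0 < t → w ∈ Ball a t →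
  (∀ X : Fin (a + 1) → ℂ, X ≠ 0 → 0 < maj t w X) ∧
  (∀ X : Fin (a + 1) → ℂ, |(herm t X X).re| ≤ maj t w X) ∧
  (∀ X Y : Fin (a + 1) → ℂ, ‖herm t X Y‖ ^ 2 ≤ maj t w X * maj t w Y)

/-- MB: comparison with the standard norm on compact parts of the ball. -/
def MB_stmt : Prop := ∀ (a : ℕ) (t : ℝ) (K : Set (Fin a → ℂ)), 0 < t → IsCompact K →
  K ⊆ Ball a t → ∃ c C : ℝ, 0 < c ∧ ∀ w ∈ K, ∀ X : Fin (a + 1) → ℂ,
    c * (∑ i, ‖X i‖ ^ 2) ≤ maj t w X ∧ maj t w X ≤ C * (∑ i, ‖X i‖ ^ 2)

/-- MC: if the majorant is bounded on vectors spanning `ℂ ^ (a + 1)` then `w` stays in a compact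
subset of the ball.
Proof: `2 ‖herm (zt w) X‖^2 = (maj - herm X X) (t - |w|^2)`, so `herm (zt w) X_i` is small if
`t - |w|^2` is small; but the `X_i` span and `zt w` has last coordinate `1`. -/
def MC_stmt : Prop := ∀ (a n : ℕ) (t C : ℝ) (X : Fin n → Fin (a + 1) → ℂ), 0 < t →
  Submodule.span ℂ (Set.range X) = ⊤ →
  ∃ r : ℝ, r < t ∧ ∀ w ∈ Ball a t, (∀ i, maj t w (X i) ≤ C) → nsq w ≤ r

/-- the hermitian matrix of the majorant -/
noncomputable def Mj {a : ℕ} (t : ℝ) (w : Fin a → ℂ) : Matrix (Fin (a + 1)) (Fin (a + 1)) ℂ :=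
  hm a (t : ℂ) + ((2 / (t - nsq w) : ℝ) : ℂ) •
    Matrix.vecMulVec (hm a (t : ℂ) *ᵥ zt w) (star (hm a (t : ℂ) *ᵥ zt w))

/-- MH: the matrix of the majorant is positive definite of determinant `t`.
(`det (H + c (H z)(H z)^*) = det H * (1 + c z^* H z)`, rank one determinant lemma.) -/
def MH_stmt : Prop := ∀ (a : ℕ) (t : ℝ) (w : Fin a → ℂ), 0 < t → w ∈ Ball a t →
  (Mj t w).PosDef ∧ (Mj t w).det = (t : ℂ) ∧
  ∀ X : Fin (a + 1) → ℂ, star X ⬝ᵥ (Mj t w *ᵥ X) = ((maj t w X : ℝ) : ℂ)

/-! ## the lattice of integral vectors -/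

section
variable {E : Type} [Field E] [NumberField E] [IsCMField E]

/-- the vector `phi x` -/
def emb {n : ℕ} (phi : E →+* ℂ) (x : Fin n → E) : Fin n → ℂ := fun i => phi (x i)

/-- the hermitian form over `E` -/
noncomputable def hE {a : ℕ} (d : E) (x y : Fin (a + 1) → E) : E := star x ⬝ᵥ (hm a d *ᵥ y)

open scoped Classical in
/-- the total majorant on `E ^ (a + 1)`: sum over all embeddings of `E` -/
noncomputable def QQ {a : ℕ} (iota : E →+* ℂ) (d : E) (w : Fin a → ℂ) (x : Fin (a + 1) → E) : ℝ :=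
  ∑ phi : E →+* ℂ, if phi = iota ∨ phi = ComplexEmbedding.conjugate iota then
    maj (iota d).re w (emb iota x) else (herm (phi d).re (emb phi x) (emb phi x)).re

/-- index set of the `ℤ`-basis of the lattice of integral vectors -/
abbrev JJ (E : Type) [Field E] [NumberField E] (a : ℕ) : Type :=
  Fin (a + 1) × Module.Free.ChooseBasisIndex ℤ (𝓞 E)

/-- the lattice vector with coordinates `c` -/
noncomputable def lx {a : ℕ} (c : JJ E a → ℤ) : Fin (a + 1) → E := fun i =>
  ∑ k, (c (i, k) : E) * (RingOfIntegers.basis E k : E)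

end

/-- EB: embeddings of a CM field; the hermitian form at a place; norms of integers.
(`star` is `complexConj`: `IsCMField.complexEmbedding_complexConj`; `Algebra.norm_eq_prod_embeddings`;
`NumberField.Embeddings.finite_of_norm_le`.) -/
def EB_stmt : Prop := ∀ (E : Type) [Field E] [NumberField E] [IsCMField E],
  (∀ (phi : E →+* ℂ) (x : E), phi (star x) = conj (phi x)) ∧
  (∀ (phi : E →+* ℂ), ComplexEmbedding.conjugate phi ≠ phi) ∧
  (∀ x : E, IsIntegral ℤ x → IsIntegral ℤ (star x)) ∧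
  (∀ x : E, star x = x → ∀ phi : E →+* ℂ, phi x = (((phi x).re : ℝ) : ℂ)) ∧
  (∀ x : E, IsIntegral ℤ x → x ≠ 0 → ∃ phi : E →+* ℂ, 1 ≤ ‖phi x‖) ∧
  (∀ B : ℝ, {x : E | IsIntegral ℤ x ∧ ∀ phi : E →+* ℂ, ‖phi x‖ ≤ B}.Finite) ∧
  (∀ (a : ℕ) (d : E) (phi : E →+* ℂ) (x y : Fin (a + 1) → E), star d = d →
    phi (hE d x y) = herm (phi d).re (emb phi x) (emb phi y)) ∧
  (∀ (a : ℕ) (d : E) (x y : Fin (a + 1) → E), star d = d → hE d y x = star (hE d x y)) ∧
  (∀ (a : ℕ) (d : E) (g : Matrix.GeneralLinearGroup (Fin (a + 1)) E) (phi : E →+* ℂ),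
    star d = d → g ∈ UE a d →
    IsU (phi d).re ((g : Matrix (Fin (a + 1)) (Fin (a + 1)) E).map phi))

/-- TB: a `ℤ`-basis of the integers of `E` has independent embeddings (discriminant not `0`), and
weak approximation: `E` is dense in the product of its completions at infinity.
(`NumberField.canonicalEmbedding.latticeBasis`, or `Algebra.discr_not_zero_of_basis` and
`Algebra.discr_eq_det_embeddingsMatrixReindex_pow_two`.  Second part: the lattice spans the real
space `{t | t (conj phi) = conj (t phi)}`, approximate real coefficients by rational ones.) -/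
def TB_stmt : Prop := ∀ (E : Type) [Field E] [NumberField E],
  (∀ c : (E →+* ℂ) → ℂ, (∀ x : E, IsIntegral ℤ x → ∑ phi : E →+* ℂ, c phi * phi x = 0) → c = 0) ∧
  (∀ (t : (E →+* ℂ) → ℂ) (e : ℝ), 0 < e →
    (∀ phi : E →+* ℂ, t (ComplexEmbedding.conjugate phi) = conj (t phi)) →
    ∃ x : E, ∀ phi : E →+* ℂ, ‖phi x - t phi‖ < e)

/-- LC: lattice coordinates: integral vectors are exactly the `lx c`, uniquely. -/
def LC_stmt : Prop := ∀ (E : Type) [Field E] [NumberField E] (a : ℕ),
  (∀ (c : JJ E a → ℤ) (i : Fin (a + 1)), IsIntegral ℤ (lx c i)) ∧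
  (∀ x : Fin (a + 1) → E, (∀ i, IsIntegral ℤ (x i)) → ∃! c : JJ E a → ℤ, lx c = x)

/-- LOW: the total majorant is at least `1` on nonzero integral vectors.
Proof: `n = hE d x x` is a real integer, `phi n = herm .. ..`.  If `n ≠ 0` some `‖phi n‖ ≥ 1` (EB),
use MA if `phi` is `iota` or its conjugate; at the other places `herm` is nonnegative.  If `n = 0`:
at an embedding different from `iota` and its conjugate (exists, the degree is at least `4`) the
form is positive definite, so `x = 0`. -/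
def LOW_stmt : Prop := ∀ (E : Type) [Field E] [NumberField E] [IsCMField E] (iota : E →+* ℂ)
  (d : E), Hyp E iota d → ∀ (a : ℕ), ∀ w ∈ Ball a (iota d).re, ∀ x : Fin (a + 1) → E,
  (∀ i, IsIntegral ℤ (x i)) → x ≠ 0 → 1 ≤ QQ iota d w x

/-- GR: the Gram matrix of the total majorant in the `ℤ`-basis of the lattice: positive
definite, and its determinant does not depend on `w`.
Proof: `G = B^* M B` with the square matrix `B ((i, phi), (j, k)) = δ_ij phi (b_k)` (invertible, TB)
and `M` block diagonal, hermitian positive definite: `Mj` at `iota`, its transpose at the conjugate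
of `iota`, diagonal at the other embeddings; `det` by MH.  `G` is real because the embeddings come
in conjugate pairs. -/
def GR_stmt : Prop := ∀ (E : Type) [Field E] [NumberField E] [IsCMField E] (iota : E →+* ℂ)
  (d : E), Hyp E iota d → ∀ a : ℕ, ∃ D : ℝ, ∀ w ∈ Ball a (iota d).re,
  ∃ G : Matrix (JJ E a) (JJ E a) ℝ, G.PosDef ∧ G.det = D ∧ ∀ c : JJ E a → ℤ,
    QQ iota d w (lx c) = (fun i => (c i : ℝ)) ⬝ᵥ (G *ᵥ fun i => (c i : ℝ))

/-- RL: for every point of the ball the lattice has a basis with bounded majorant.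
(`BQ.RB_stmt`, proved in `Pool.Agent.helper78.BQ.RB`, LOW, GR, LC; reindex by `Fin N`.) -/
def RL_stmt : Prop := ∀ (E : Type) [Field E] [NumberField E] [IsCMField E] (iota : E →+* ℂ)
  (d : E), Hyp E iota d → ∀ a : ℕ, ∃ C : ℝ, ∀ w ∈ Ball a (iota d).re,
  ∃ U : Matrix (JJ E a) (JJ E a) ℤ, IsUnit U.det ∧ ∀ j, QQ iota d w (lx fun i => U i j) ≤ C

/-- GF: finitely many hermitian Gram matrices of bases with bounded majorant.
(MA Cauchy-Schwarz at every place, each term of `QQ` is nonnegative; EB.) -/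
def GF_stmt : Prop := ∀ (E : Type) [Field E] [NumberField E] [IsCMField E] (iota : E →+* ℂ)
  (d : E), Hyp E iota d → ∀ (a : ℕ) (C : ℝ), {P : JJ E a → JJ E a → E |
    ∃ w ∈ Ball a (iota d).re, ∃ U : Matrix (JJ E a) (JJ E a) ℤ,
    (∀ j, QQ iota d w (lx fun i => U i j) ≤ C) ∧
    ∀ j k, P j k = hE d (lx fun i => U i j) (lx fun i => U i k)}.Finite

/-- EX: two bases of the lattice with the same hermitian Gram matrix differ by an integral unitary
matrix.
Proof: let `f` be the `ℤ`-linear bijection of the lattice with `U_j ↦ U'_j`; it preserves the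
biadditive form `hE`; `hE (f (b X) - b f X) (f Y) = hE (b X) Y - star b * hE X Y = 0` for all `Y`,
so `f` is linear over the integers of `E`; the matrices with columns `f e_j` and `f⁻¹ e_j`. -/
def EX_stmt : Prop := ∀ (E : Type) [Field E] [NumberField E] [IsCMField E] (a : ℕ) (d : E),
  IsIntegral ℤ d → star d = d → d ≠ 0 → ∀ U U' : Matrix (JJ E a) (JJ E a) ℤ,
  IsUnit U.det → IsUnit U'.det →
  (∀ j k, hE d (lx fun i => U i j) (lx fun i => U i k) =
    hE d (lx fun i => U' i j) (lx fun i => U' i k)) →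
  ∃ g ∈ Gam a d 1, ∀ j, (g : Matrix (Fin (a + 1)) (Fin (a + 1)) E) *ᵥ (lx fun i => U i j) =
    lx fun i => U' i j

/-- KF: cocompactness of the integral unitary group.
Proof: RL gives for every `w` a reduced basis `U_w`; by GF only finitely many Gram matrices occur;
choose for each occurring Gram matrix one representative `(w', U')`.  By EX there is `g` integral
unitary with `g U_w = U'`, and with `w1 = mob (iota g) w`, `QQ w1 U' = QQ w U_w ≤ C` (ME at
`iota`, unitarity at the other places), so `w1` is in a fixed compact set by MC (the columns of `U'`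
span `ℂ ^ (a + 1)` at `iota`). -/
def KF_stmt : Prop := ∀ (E : Type) [Field E] [NumberField E] [IsCMField E] (iota : E →+* ℂ)
  (d : E), Hyp E iota d → ∀ a : ℕ, Cocompact (iota d).re (GC iota (Gam a d 1))

/-- KS: subgroups of finite index of a cocompact group are cocompact. -/
def KS_stmt : Prop := ∀ (a : ℕ) (t : ℝ)
  (G G' : Subgroup (Matrix.GeneralLinearGroup (Fin (a + 1)) ℂ)), 0 < t → InU t G → G' ≤ G →
  G'.relIndex G ≠ 0 → Cocompact t G → Cocompact t G'

/-! ## arithmetic -/

/-- GM: the groups of complex matrices. -/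
def GM_stmt : Prop := ∀ (E : Type) [Field E] [NumberField E] [IsCMField E] (iota : E →+* ℂ)
  (a : ℕ) (d : E), star d = d →
  (∀ G : Subgroup (Matrix.GeneralLinearGroup (Fin (a + 1)) E), G ≤ UE a d →
    InU (iota d).re (GC iota G)) ∧
  (∀ (G : Subgroup (Matrix.GeneralLinearGroup (Fin (a + 1)) E))
    (g : Matrix.GeneralLinearGroup (Fin (a + 1)) E),
    Matrix.GeneralLinearGroup.map iota g ∈ GC iota G ↔ g ∈ G) ∧
  Function.Injective (Matrix.GeneralLinearGroup.map (n := Fin (a + 1)) iota) ∧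
  (∀ N M : ℕ, N ∣ M → Gam a d M ≤ Gam a d N)

/-- CG: congruence subgroups have finite index.  (The integers of `E` are a finitely generated
group, so integers modulo `N` form a finite set; `g⁻¹ h ∈ Gam N` as soon as `g ≡ h` mod `N`.) -/
def CG_stmt : Prop := ∀ (E : Type) [Field E] [NumberField E] [IsCMField E] (a : ℕ) (d : E)
  (N : ℕ), 0 < N → (Gam a d N).relIndex (Gam a d 1) ≠ 0

/-- CJ: conjugation by rational unitary matrices.  (Common denominator of `g` and `g⁻¹`.) -/
def CJ_stmt : Prop := ∀ (E : Type) [Field E] [NumberField E] [IsCMField E] (a : ℕ) (d : E),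
  ∀ g ∈ UE a d, ∀ N : ℕ, 0 < N → ∃ M : ℕ, 0 < M ∧ ∀ x ∈ Gam a d M, g * x * g⁻¹ ∈ Gam a d N

/-- TF: torsion.  Proof (Minkowski): reduce to `g ^ p = 1`, `p` prime, `g ≠ 1`.  Write
`g = 1 + 3 ^ k B`, `k ≥ 1`, `B` integral, `k` maximal (exists: an integer of `E` divisible by all
powers of `3` is `0`).  Expanding, `p 3^k B + (p choose 2) 3^(2k) B^2 + ... = 0`; if `p ≠ 3` then
`p B ∈ 3 O`, so `B ∈ 3 O`; if `p = 3`, `B = - 3^k B^2 - 3^(2k-1) B^3 ∈ 3 O`: contradiction.
(Compare `Pool.Agent.helper13.BQ.TF`.)  Determinant: an integer of `E` all of whose embeddings have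
absolute value `1` is a root of unity (`NumberField.Embeddings.pow_eq_one_of_norm_eq_one`), and it
is `1` modulo `3`. -/
def TF_stmt : Prop := ∀ (E : Type) [Field E] [NumberField E] [IsCMField E] (a : ℕ) (d : E),
  star d = d → d ≠ 0 → ∀ g ∈ Gam a d 3, (∀ n : ℕ, 0 < n → g ^ n = 1 → g = 1) ∧
    (g : Matrix (Fin (a + 1)) (Fin (a + 1)) E).det = 1

/-- DE: the rational unitary group is dense in `U(a, 1)`.
Proof: Cayley transform: `g = (1 + X) (1 - X)⁻¹`, `X` with `Xᴴ H = - H X`; such `X` over `E` are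
dense in those over `ℂ` (entries `i < j` free, the diagonal purely imaginary, TB).  If `1 + g` is not
invertible, multiply by a scalar `u` of absolute value `1` (itself a limit of elements `x` of `E`
with `star x * x = 1`) such that `1 + u g` is. -/
def DE_stmt : Prop := ∀ (E : Type) [Field E] [NumberField E] [IsCMField E] (iota : E →+* ℂ)
  (a : ℕ) (d : E), star d = d → 0 < (iota d).re →
  ∀ (g : Matrix (Fin (a + 1)) (Fin (a + 1)) ℂ) (e : ℝ), IsU (iota d).re g → 0 < e →
  ∃ x ∈ UE a d, ∀ i j, ‖iota ((x : Matrix (Fin (a + 1)) (Fin (a + 1)) E) i j) - g i j‖ < e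

/-- TY: existence of `d`, and of purely imaginary elements with prescribed signs.
(TB; clear denominators.) -/
def TY_stmt : Prop := ∀ (E : Type) [Field E] [NumberField E] [IsCMField E] (iota : E →+* ℂ),
  (4 ≤ Module.finrank ℚ E → ∃ d : E, Hyp E iota d) ∧
  (∀ P : Set (E →+* ℂ), (∀ phi : E →+* ℂ, ComplexEmbedding.conjugate phi ∈ P ↔ phi ∉ P) →
    ∃ x : E, IsIntegral ℤ x ∧ star x = -x ∧ P = {phi : E →+* ℂ | 0 < (phi x).im}) ∧
  (∀ x : E, star x = -x → x ≠ 0 → ∀ phi : E →+* ℂ,
    0 < (ComplexEmbedding.conjugate phi x).im ↔ ¬ 0 < (phi x).im)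

end HC
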