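import Mathlib

/-!
# HC: arithmetic groups acting on the ball, basic definitions

`E` is a CM field (`star` is the complex conjugation of `E`, it commutes with every embedding
`E →+* ℂ`), `iota : E →+* ℂ`, `d` a real integer of `E`, positive at `iota` and negative at the
embeddings different from `iota` and its conjugate.  The hermitian form is
`diag (1, .., 1, -d)` of size `a + 1`; the group acts on the ball of squared radius `iota d` in
`ℂ ^ a` through `iota`.
-/

open scoped BigOperators ComplexConjugate Matrix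
open NumberField

namespace HC

/-! ## the ball and the action of complex matrices -/

/-- the matrix `diag (1, .., 1, -t)` of size `a + 1` -/
def hm (a : ℕ) {R : Type*} [Ring R] (t : R) : Matrix (Fin (a + 1)) (Fin (a + 1)) R :=
  Matrix.diagonal (Fin.snoc (fun _ : Fin a => (1 : R)) (-t))

/-- the hermitian form `conj X ^ T * diag (1, .., 1, -t) * Y` -/
noncomputable def herm {a : ℕ} (t : ℝ) (X Y : Fin (a + 1) → ℂ) : ℂ :=
  ∑ i : Fin a, conj (X i.castSucc) * Y i.castSucc - (t : ℂ) * (conj (X (Fin.last a)) * Y (Fin.last a))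

/-- the vector `(z, 1)` -/
def zt {a : ℕ} (z : Fin a → ℂ) : Fin (a + 1) → ℂ := Fin.snoc z 1

/-- the squared norm of `z` -/
noncomputable def nsq {a : ℕ} (z : Fin a → ℂ) : ℝ := ∑ i, ‖z i‖ ^ 2

/-- the ball of squared radius `t` in `ℂ ^ a` -/
def Ball (a : ℕ) (t : ℝ) : Set (Fin a → ℂ) := {z | nsq z < t}

/-- the factor of automorphy: last coordinate of `g (z, 1)` -/
noncomputable def jf {a : ℕ} (g : Matrix (Fin (a + 1)) (Fin (a + 1)) ℂ) (z : Fin a → ℂ) : ℂ :=
  (g *ᵥ zt z) (Fin.last a)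

/-- the action by fractional linear maps -/
noncomputable def mob {a : ℕ} (g : Matrix (Fin (a + 1)) (Fin (a + 1)) ℂ) (z : Fin a → ℂ) :
    Fin a → ℂ :=
  fun i => (g *ᵥ zt z) i.castSucc / jf g z

/-- the positive definite majorant of `herm t` attached to the point `w` of the ball -/
noncomputable def maj {a : ℕ} (t : ℝ) (w : Fin a → ℂ) (X : Fin (a + 1) → ℂ) : ℝ :=
  (herm t X X).re + 2 * ‖herm t (zt w) X‖ ^ 2 / (t - nsq w)

/-- the matrix `g` preserves the form `diag (1, .., 1, -t)` -/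
def IsU {a : ℕ} (t : ℝ) (g : Matrix (Fin (a + 1)) (Fin (a + 1)) ℂ) : Prop :=
  gᴴ * hm a (t : ℂ) * g = hm a (t : ℂ)

/-! ## groups of complex matrices acting on the ball -/

section
variable {a : ℕ}

/-- all elements of `G` preserve the form -/
def InU (t : ℝ) (G : Subgroup (Matrix.GeneralLinearGroup (Fin (a + 1)) ℂ)) : Prop :=
  ∀ g ∈ G, IsU t (g : Matrix (Fin (a + 1)) (Fin (a + 1)) ℂ)

/-- `G` acts properly discontinuously on the ball -/
def Disc (t : ℝ) (G : Subgroup (Matrix.GeneralLinearGroup (Fin (a + 1)) ℂ)) : Prop :=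
  ∀ K : Set (Fin a → ℂ), IsCompact K → K ⊆ Ball a t →
    {g : Matrix.GeneralLinearGroup (Fin (a + 1)) ℂ | g ∈ G ∧ ∃ z ∈ K,
      mob (g : Matrix (Fin (a + 1)) (Fin (a + 1)) ℂ) z ∈ K}.Finite

/-- `G` acts freely on the ball -/
def ActsFreely (t : ℝ) (G : Subgroup (Matrix.GeneralLinearGroup (Fin (a + 1)) ℂ)) : Prop :=
  ∀ g ∈ G, ∀ z ∈ Ball a t, mob (g : Matrix (Fin (a + 1)) (Fin (a + 1)) ℂ) z = z → g = 1

/-- the quotient of the ball by `G` is compact -/
def Cocompact (t : ℝ) (G : Subgroup (Matrix.GeneralLinearGroup (Fin (a + 1)) ℂ)) : Prop :=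
  ∃ K : Set (Fin a → ℂ), IsCompact K ∧ K ⊆ Ball a t ∧
    ∀ z ∈ Ball a t, ∃ g ∈ G, mob (g : Matrix (Fin (a + 1)) (Fin (a + 1)) ℂ) z ∈ K

/-- a group of isometries of the ball acting freely and properly discontinuously with compact
quotient -/
structure Good (t : ℝ) (G : Subgroup (Matrix.GeneralLinearGroup (Fin (a + 1)) ℂ)) : Prop where
  pos : 0 < t
  inU : InU t G
  disc : Disc t G
  free : ActsFreely t G
  coc : Cocompact t G

/-- `D` is a measurable strict fundamental domain of the group `G` in the ball -/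
def IsFD (t : ℝ) (G : Subgroup (Matrix.GeneralLinearGroup (Fin (a + 1)) ℂ))
    (D : Set (Fin a → ℂ)) : Prop :=
  MeasurableSet D ∧ D ⊆ Ball a t ∧
    ∀ z ∈ Ball a t, ∃! w, w ∈ D ∧ ∃ g ∈ G, mob (g : Matrix (Fin (a + 1)) (Fin (a + 1)) ℂ) z = w

/-- the density `u` (with respect to Lebesgue measure) on the ball is invariant under `mob g` -/
def InvD (t : ℝ) (g : Matrix (Fin (a + 1)) (Fin (a + 1)) ℂ) (u : (Fin a → ℂ) → ℂ) : Prop :=
  ∀ z ∈ Ball a t, u (mob g z) * ((‖(fderiv ℂ (mob g) z).det‖ ^ 2 : ℝ) : ℂ) = u z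

/-- the 1-form `∑ f i dz_i` on the ball is invariant under `mob g` -/
def Inv1 (t : ℝ) (g : Matrix (Fin (a + 1)) (Fin (a + 1)) ℂ) (f : (Fin a → ℂ) → Fin a → ℂ) :
    Prop :=
  ∀ z ∈ Ball a t, ∀ u : Fin a → ℂ, f (mob g z) ⬝ᵥ (fderiv ℂ (mob g) z u) = f z ⬝ᵥ u

/-- the form `f dz_1 .. dz_a` on the ball is invariant under `mob g` -/
def InvTop (t : ℝ) (g : Matrix (Fin (a + 1)) (Fin (a + 1)) ℂ) (f : (Fin a → ℂ) → ℂ) : Prop :=
  ∀ z ∈ Ball a t, f (mob g z) * (fderiv ℂ (mob g) z).det = f z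

end

/-! ## the arithmetic groups -/

section
variable (E : Type) [Field E] [NumberField E] [IsCMField E]

/-- the standing hypotheses -/
structure Hyp (iota : E →+* ℂ) (d : E) : Prop where
  /-- the maximal real subfield is not `ℚ` -/
  deg : 4 ≤ Module.finrank ℚ E
  int : IsIntegral ℤ d
  real : star d = d
  pos : 0 < (iota d).re
  neg : ∀ phi : E →+* ℂ, phi ≠ iota → phi ≠ ComplexEmbedding.conjugate iota → (phi d).re < 0

variable {E}

/-- the unitary group of `diag (1, .., 1, -d)` over `E` -/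
noncomputable def UE (a : ℕ) (d : E) : Subgroup (Matrix.GeneralLinearGroup (Fin (a + 1)) E) where
  carrier := {g | (g : Matrix (Fin (a + 1)) (Fin (a + 1)) E)ᴴ * hm a d *
    (g : Matrix (Fin (a + 1)) (Fin (a + 1)) E) = hm a d}
  mul_mem' := by
    intro g h hg hh
    simp only [Set.mem_ofPred_eq, Units.val_mul, Matrix.conjTranspose_mul] at *
    calc (h : Matrix (Fin (a + 1)) (Fin (a + 1)) E)ᴴ * (g : Matrix (Fin (a + 1)) (Fin (a + 1)) E)ᴴ *
          hm a d * ((g : Matrix (Fin (a + 1)) (Fin (a + 1)) E) * h)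
        = (h : Matrix (Fin (a + 1)) (Fin (a + 1)) E)ᴴ *
          ((g : Matrix (Fin (a + 1)) (Fin (a + 1)) E)ᴴ * hm a d * g) * h := by
          simp only [Matrix.mul_assoc]
      _ = hm a d := by rw [hg, hh]
  one_mem' := by simp
  inv_mem' := by
    intro g hg
    simp only [Set.mem_ofPred_eq] at *
    have hu : (g : Matrix (Fin (a + 1)) (Fin (a + 1)) E) *
        ((g⁻¹ : Matrix.GeneralLinearGroup (Fin (a + 1)) E) : Matrix (Fin (a + 1)) (Fin (a + 1)) E)
        = 1 := by
      rw [← Units.val_mul, mul_inv_cancel, Units.val_one]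
    have hv := congrArg Matrix.conjTranspose hu
    rw [Matrix.conjTranspose_mul, Matrix.conjTranspose_one] at hv
    calc ((g⁻¹ : Matrix.GeneralLinearGroup (Fin (a + 1)) E) :
            Matrix (Fin (a + 1)) (Fin (a + 1)) E)ᴴ * hm a d *
          ((g⁻¹ : Matrix.GeneralLinearGroup (Fin (a + 1)) E) : Matrix (Fin (a + 1)) (Fin (a + 1)) E)
        = ((g⁻¹ : Matrix.GeneralLinearGroup (Fin (a + 1)) E) :
            Matrix (Fin (a + 1)) (Fin (a + 1)) E)ᴴ *
          ((g : Matrix (Fin (a + 1)) (Fin (a + 1)) E)ᴴ * hm a d * g) *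
          ((g⁻¹ : Matrix.GeneralLinearGroup (Fin (a + 1)) E) :
            Matrix (Fin (a + 1)) (Fin (a + 1)) E) := by rw [hg]
      _ = (((g⁻¹ : Matrix.GeneralLinearGroup (Fin (a + 1)) E) :
            Matrix (Fin (a + 1)) (Fin (a + 1)) E)ᴴ *
          (g : Matrix (Fin (a + 1)) (Fin (a + 1)) E)ᴴ) * hm a d *
          ((g : Matrix (Fin (a + 1)) (Fin (a + 1)) E) *
          ((g⁻¹ : Matrix.GeneralLinearGroup (Fin (a + 1)) E) :
            Matrix (Fin (a + 1)) (Fin (a + 1)) E)) := by simp only [Matrix.mul_assoc]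
      _ = hm a d := by rw [hu, hv]; simp

/-- entrywise congruence to the identity modulo `N` times integers (`N = 1`: integral matrices) -/
def CongOne {n : ℕ} (N : ℕ) (M : Matrix (Fin n) (Fin n) E) : Prop :=
  ∀ i j, ∃ b : E, IsIntegral ℤ b ∧ (M - 1) i j = (N : E) * b

/-- the principal congruence subgroup of level `N` of the unitary group of
`diag (1, .., 1, -d)` -/
noncomputable def Gam (a : ℕ) (d : E) (N : ℕ) :
    Subgroup (Matrix.GeneralLinearGroup (Fin (a + 1)) E) where
  carrier := {g | g ∈ UE a d ∧ CongOne N (g : Matrix (Fin (a + 1)) (Fin (a + 1)) E) ∧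
    CongOne N ((g⁻¹ : Matrix.GeneralLinearGroup (Fin (a + 1)) E) :
      Matrix (Fin (a + 1)) (Fin (a + 1)) E)}
  mul_mem' := by
    have key : ∀ A B : Matrix (Fin (a + 1)) (Fin (a + 1)) E, CongOne N A → CongOne N B →
        CongOne N (A * B) := by
      intro A B hA hB i j
      choose x hx hx' using hA
      choose y hy hy' using hB
      have e : A * B - 1 = (A - 1) * (B - 1) + (A - 1) + (B - 1) := by noncomm_ring
      refine ⟨(N : E) * ∑ k, x i k * y k j + x i j + y i j, ?_, ?_⟩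
      · exact (((isIntegral_natCast N).mul (IsIntegral.sum _ fun k _ => (hx i k).mul (hy k j))).add
          (hx i j)).add (hy i j)
      · rw [e, Matrix.add_apply, Matrix.add_apply, Matrix.mul_apply, hx' i j, hy' i j, mul_add,
          mul_add, Finset.mul_sum, Finset.mul_sum]
        congr 2
        refine Finset.sum_congr rfl fun k _ => ?_
        rw [hx' i k, hy' k j]; ring
    rintro g h ⟨hg, hg1, hg2⟩ ⟨hh, hh1, hh2⟩
    refine ⟨mul_mem hg hh, ?_, ?_⟩
    · rw [Units.val_mul]; exact key _ _ hg1 hh1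
    · rw [mul_inv_rev, Units.val_mul]; exact key _ _ hh2 hg2
  one_mem' := by
    refine ⟨one_mem _, fun i j => ⟨0, isIntegral_zero, by simp⟩, fun i j => ⟨0, isIntegral_zero, ?_⟩⟩
    rw [inv_one]; simp
  inv_mem' := by
    rintro g ⟨hg, hg1, hg2⟩
    exact ⟨inv_mem hg, hg2, by rw [inv_inv]; exact hg1⟩

/-- the image of a group of matrices over `E` under the embedding `iota` -/
noncomputable def GC {n : ℕ} (iota : E →+* ℂ)
    (G : Subgroup (Matrix.GeneralLinearGroup (Fin n) E)) :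
    Subgroup (Matrix.GeneralLinearGroup (Fin n) ℂ) :=
  G.map (Matrix.GeneralLinearGroup.map iota)

end

end HC
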